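import Mathlib
import Pool.Agent.W484.CK.NC

/-!
# The noncommutative conjecture of Parshin and products with abelian varieties: definitions
-/

set_option autoImplicit false

open CategoryTheory AlgebraicGeometry

universe u v w

namespace Pool.Agent.Y122.NCP

open Polynomial Pool.Agent.H914 Pool.Agent.H914.VarClass Pool.Agent.H914.VarClass.Obj
  Pool.Agent.W492.BB Pool.Agent.W484.CK

variable {k : Type u} [Field k] {𝒱 : VarClass k} {C : TheoryData.{u, v, 0} 𝒱 ℚ}

/-- The properties of the groups `K_n(X)` with rational coefficients, `n ≥ 0` (`T n` stands for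
`K_n`, graded by the Adams eigenspaces `K_n(X)^(i)`): for each `n` the classes in
`K_0(X × Y)_ℚ = CH(X × Y)_ℚ` act as homomorphisms from `K_n(X)_ℚ` to `K_n(Y)_ℚ` with the
usual rules, `K_n(X)_ℚ` is the sum of the `K_n(X)^(i)`, and the endomorphism `π` acts on
`K_n(X)^(i)` as multiplication by `Q ^ i`. -/
structure IsKTheory (T : ℕ → MotivicData C) {X : 𝒱.Obj} (π : X ⟶ X) (Q : ℕ) : Prop where
  motivic : ∀ n, IsMotivic (T n)
  exhausted : ∀ n, (T n).IsExhausted
  frobenius : ∀ n, ActsAsPower (T n) π Q

/-- The noncommutative conjecture of Parshin for the direct summand `(Z, e)` of the noncommutative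
motive of `Z`: the groups `K_n(Z, e)_ℚ`, that is the images of `e` in `K_n(Z)_ℚ`, vanish for all
`n ≥ 1`. -/
def NCParshin (T : ℕ → MotivicData C) {Z : 𝒱.Obj} (e : C.A (Z.prod Z)) : Prop :=
  ∀ n, 1 ≤ n → (T n).Trivial e

/-- `NCParshinForRankOver E q r f`: for the Chow groups `C` with rational coefficients of all
classes `𝒱` of varieties over fields `k` (finite, in the intended use), every Weil cohomology theory
`H` with coefficients in an algebraically closed field `K` of characteristic zero and all `A`, `Z`
as in `IsSituation` there are products `D j` of `deg j` divisor classes on `A`, finitely many, such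
that for the rational `K`-groups `T n = K_n`, `n ≥ 0`, and all direct summands `(Z, e)` of the
noncommutative motive of `Z`: the Kunneth formula `K_n(A × Z, 1 × e)_ℚ = ⨁ D j × K_n(Z, e)_ℚ`
holds for all `n ≥ 0`, and the noncommutative conjecture of Parshin holds for `(A × Z, 1 × e)` if
and only if it holds for `(Z, e)`. -/
def NCParshinForRankOver (E : IntermediateField ℚ ℂ) (q r : ℕ) {I : Type} (f : I → ℤ[X]) : Prop :=
  ∀ (k : Type) [Field k] (𝒱 : VarClass k) (C : TheoryData.{0, 0, 0} 𝒱 ℚ) [IsChow C],
    IsoInvariant C → ∀ (K : Type) [Field K] [IsAlgClosed K] [CharZero K]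
    (H : WeilTheoryData.{0, 0, 0} C K) [IsWeil H] (s : ℕ) (A Z : 𝒱.Obj) (πA : A ⟶ A)
    (πZ : Z ⟶ Z), IsSituation H E q r s f πA πZ →
      ∃ (J : Type) (_ : Fintype J) (deg : J → ℕ) (D : J → C.A A),
        (∀ j, DivisorProduct C (deg j) (D j)) ∧ ∀ T : ℕ → MotivicData C,
          IsKTheory T (prodMap πA πZ) (q ^ s) → ∀ e : C.A (Z.prod Z), IsIdempotent C e →
            (∀ n, (T n).KunnethFor A e D) ∧
              (NCParshin T (relative C A e) ↔ NCParshin T e)

end Pool.Agent.Y122.NCP
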