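import Mathlib
import Pool.Agent.Y122.NCP.Defs
import Pool.Agent.W484.CK.NCMain

/-!
# The noncommutative conjecture of Parshin and products with almost all abelian varieties
-/

set_option autoImplicit false

namespace Pool.Agent.Y122.NCP

open Polynomial Pool.Agent.W521.Descent Pool.Agent.W521.Count Pool.Agent.W484.TB
  Pool.Agent.W484.CK

theorem parshin_of_nc {E : IntermediateField ℚ ℂ} {q r : ℕ} {I : Type} {f : I → ℤ[X]}
    (h : NCForRankOver E q r f) : NCParshinForRankOver E q r f := by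
  intro k _ 𝒱 C _ hI K _ _ _ H _ s A Z πA πZ hsit
  obtain ⟨J, hJ, deg, D, hD, hT⟩ := h k 𝒱 C hI K H s A Z πA πZ hsit
  refine ⟨J, hJ, deg, D, hD, fun T hK e he => ⟨fun n => ?_, ?_⟩⟩
  · exact (hT (T n) (hK.motivic n) (hK.exhausted n) (hK.frobenius n) e he).1
  · refine forall_congr' fun n => forall_congr' fun _ => ?_
    exact (hT (T n) (hK.motivic n) (hK.exhausted n) (hK.frobenius n) e he).2

theorem count {I : Type} [Fintype I] (g : I → ℕ) (r : ℕ) (hr : ∀ i, r < g i)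
    (E : IntermediateField ℚ ℂ) [FiniteDimensional ℚ E] :
    ∃ C : ℝ, ∀ q : ℕ, IsPrimePow q → ∀ S : I → Set ℤ[X],
      (∀ i, ordinaryWeilPolys q (g i) ⊆ S i ∧ S i ⊆ weilPolys q (g i)) →
      (∀ i, (S i).Finite ∧ (S i).Nonempty) ∧
      ({f : I → ℤ[X] | (∀ i, f i ∈ S i) ∧ ¬ NCParshinForRankOver E q r f}.ncard : ℝ) ≤
        C * (Real.log q * (q : ℝ) ^ (-(1 / 6) : ℝ)) * ∏ i, ((S i).ncard : ℝ) :=
  count_of_goodU (splitPrimes E) (dense_splitPrimes E) g
    (fun i => (Nat.zero_le r).trans_lt (hr i)) (fun q f => NCParshinForRankOver E q r f)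
    fun _ hq x hx => parshin_of_nc (ncForRankOver_of_good g E hq.one_lt r hr x hx)

end Pool.Agent.Y122.NCP
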